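import Mathlib

set_option autoImplicit false

namespace Pool.Agent.Results.MP_653f52_an.SlowGrowth

open Matrix Filter Topology

open scoped Matrix.Norms.Elementwise

/-- `prodM A k = A (k - 1) * ⋯ * A 0`. -/
def prodM {d : ℕ} (A : ℕ → Matrix (Fin d) (Fin d) ℝ) : ℕ → Matrix (Fin d) (Fin d) ℝ
  | 0 => 1
  | (k + 1) => A k * prodM A k

/-- `ρ` is the joint spectral radius of `S`: the limit of the `1 / k`-th power of the supremum of the
(max-entry) norms of all products of `k` elements of `S`. -/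
def IsJSR {d : ℕ} (S : Set (Matrix (Fin d) (Fin d) ℝ)) (ρ : ℝ) : Prop :=
  Tendsto (fun k : ℕ => (sSup {r : ℝ | ∃ A : ℕ → Matrix (Fin d) (Fin d) ℝ,
    (∀ i, A i ∈ S) ∧ r = ‖prodM A k‖}) ^ (1 / (k : ℝ))) atTop (𝓝 ρ)

/-- `x` is a trajectory of the discrete time switching system `S`. -/
def Trajectory {d : ℕ} (S : Set (Matrix (Fin d) (Fin d) ℝ)) (x : ℕ → Fin d → ℝ) : Prop :=
  ∀ k, ∃ A ∈ S, x (k + 1) = A *ᵥ x k

/-- the matrices of the example -/
noncomputable def mat (s : ℝ) : Matrix (Fin 2) (Fin 2) ℝ := !![1 - s, Real.negMulLog s; 0, 1 - s]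

/-- the family -/
def fam : Set (Matrix (Fin 2) (Fin 2) ℝ) := mat '' Set.Icc 0 (1 / 2)

theorem fam_compact : IsCompact fam := by
  apply isCompact_Icc.image
  have h : Continuous (fun s : ℝ => !![1 - s, Real.negMulLog s; 0, 1 - s]) := by
    apply continuous_matrix
    intro i j
    fin_cases i <;> fin_cases j <;> simp <;> fun_prop
  exact h

/-- recursion for the entries of the products. -/
noncomputable def pq (s : ℕ → ℝ) : ℕ → ℝ × ℝ
  | 0 => (1, 0)
  | (k + 1) => ((1 - s k) * (pq s k).1, (1 - s k) * (pq s k).2 + Real.negMulLog (s k) * (pq s k).1)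

theorem phi_nonneg {t : ℝ} (h0 : 0 ≤ t) (h1 : t ≤ 1 / 2) : 0 ≤ Real.negMulLog t :=
  Real.negMulLog_nonneg h0 (by linarith)

theorem phi_le {t : ℝ} (h0 : 0 ≤ t) (n : ℝ) (hn : 0 < n) :
    Real.negMulLog t ≤ t * Real.log n + 1 / n := by
  rcases h0.eq_or_lt with rfl | ht
  · simp; positivity
  have h1 := Real.log_le_sub_one_of_pos (show 0 < 1 / (n * t) by positivity)
  rw [one_div, Real.log_inv, Real.log_mul hn.ne' ht.ne'] at h1
  have h2 : t * (-(Real.log n + Real.log t)) ≤ t * ((n * t)⁻¹ - 1) :=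
    mul_le_mul_of_nonneg_left h1 ht.le
  have h3 : t * ((n * t)⁻¹ - 1) = 1 / n - t := by field_simp
  rw [h3] at h2
  simp only [Real.negMulLog]
  nlinarith

theorem pq_bound (s : ℕ → ℝ) (hs : ∀ k, 0 ≤ s k ∧ s k ≤ 1 / 2) (k : ℕ) :
    0 ≤ (pq s k).1 ∧ (pq s k).1 ≤ Real.exp (-∑ j ∈ Finset.range k, s j) ∧ 0 ≤ (pq s k).2 ∧
    (pq s k).2 ≤ 2 * Real.exp (-∑ j ∈ Finset.range k, s j)
      * ∑ j ∈ Finset.range k, Real.negMulLog (s j) := by
  induction k with
  | zero => simp [pq]
  | succ k ih =>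
    obtain ⟨h1, h2, h3, h4⟩ := ih
    obtain ⟨a, b⟩ := hs k
    have hphi := phi_nonneg a b
    have he : 1 - s k ≤ Real.exp (-s k) := by
      have := Real.add_one_le_exp (-s k); linarith
    have he2 : 1 ≤ 2 * Real.exp (-s k) := by linarith
    set S := ∑ j ∈ Finset.range k, s j with hS
    set Φ := ∑ j ∈ Finset.range k, Real.negMulLog (s j) with hΦ
    have hexp : Real.exp (-(S + s k)) = Real.exp (-s k) * Real.exp (-S) := by
      rw [← Real.exp_add]; congr 1; ring
    have hΦ0 : 0 ≤ Φ := Finset.sum_nonneg fun j _ => phi_nonneg (hs j).1 (hs j).2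
    have hE := Real.exp_pos (-S)
    have hE1 := Real.exp_pos (-s k)
    rw [Finset.sum_range_succ, Finset.sum_range_succ, ← hS, ← hΦ, hexp]
    simp only [pq]
    refine ⟨mul_nonneg (by linarith) h1, ?_, ?_, ?_⟩
    · exact mul_le_mul he h2 h1 hE1.le
    · have := mul_nonneg (show 0 ≤ 1 - s k by linarith) h3
      have := mul_nonneg hphi h1
      linarith
    · have t1 : (1 - s k) * (pq s k).2 ≤ Real.exp (-s k) * (2 * Real.exp (-S) * Φ) :=
        mul_le_mul he h4 h3 hE1.le
      have t2 : Real.negMulLog (s k) * (pq s k).1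
          ≤ (2 * Real.exp (-s k)) * (Real.negMulLog (s k) * Real.exp (-S)) := by
        have t3 : Real.negMulLog (s k) * (pq s k).1 ≤ Real.negMulLog (s k) * Real.exp (-S) :=
          mul_le_mul_of_nonneg_left h2 hphi
        have t4 : 0 ≤ Real.negMulLog (s k) * Real.exp (-S) := mul_nonneg hphi hE.le
        nlinarith
      calc _ ≤ Real.exp (-s k) * (2 * Real.exp (-S) * Φ)
            + (2 * Real.exp (-s k)) * (Real.negMulLog (s k) * Real.exp (-S)) := add_le_add t1 t2
        _ = _ := by ring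

theorem pq_le (s : ℕ → ℝ) (hs : ∀ k, 0 ≤ s k ∧ s k ≤ 1 / 2) (k : ℕ) (hk : 1 ≤ k) :
    0 ≤ (pq s k).1 ∧ (pq s k).1 ≤ 1 ∧ 0 ≤ (pq s k).2 ∧ (pq s k).2 ≤ 2 * (Real.log k + 1) := by
  obtain ⟨h1, h2, h3, h4⟩ := pq_bound s hs k
  have hk' : (0 : ℝ) < k := by exact_mod_cast hk
  have hlog : 0 ≤ Real.log k := Real.log_nonneg (by exact_mod_cast hk)
  set S := ∑ j ∈ Finset.range k, s j with hS
  set Φ := ∑ j ∈ Finset.range k, Real.negMulLog (s j) with hΦ
  have hS0 : 0 ≤ S := Finset.sum_nonneg fun j _ => (hs j).1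
  have hE1 : Real.exp (-S) ≤ 1 := by rw [Real.exp_le_one_iff]; linarith
  have hE0 := Real.exp_pos (-S)
  have hSE : S * Real.exp (-S) ≤ 1 := by
    rw [Real.exp_neg, ← div_eq_mul_inv, div_le_one (Real.exp_pos S)]
    have := Real.add_one_le_exp S; linarith
  have hΦ1 : Φ ≤ S * Real.log k + 1 := by
    calc Φ ≤ ∑ j ∈ Finset.range k, (s j * Real.log k + 1 / (k : ℝ)) :=
          Finset.sum_le_sum fun j _ => phi_le (hs j).1 k hk'
      _ = S * Real.log k + 1 := by
          rw [Finset.sum_add_distrib, ← Finset.sum_mul, Finset.sum_const, Finset.card_range,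
            nsmul_eq_mul, ← hS, mul_one_div_cancel hk'.ne']
  refine ⟨h1, h2.trans hE1, h3, ?_⟩
  calc (pq s k).2 ≤ 2 * Real.exp (-S) * Φ := h4
    _ ≤ 2 * Real.exp (-S) * (S * Real.log k + 1) := by gcongr
    _ = 2 * ((S * Real.exp (-S)) * Real.log k + Real.exp (-S)) := by ring
    _ ≤ 2 * (1 * Real.log k + 1) := by gcongr
    _ = _ := by ring

theorem prodM_eq (s : ℕ → ℝ) (k : ℕ) :
    prodM (fun j => mat (s j)) k = !![(pq s k).1, (pq s k).2; 0, (pq s k).1] := by
  induction k with
  | zero =>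
    ext i j
    fin_cases i <;> fin_cases j <;> simp [prodM, pq]
  | succ k ih =>
    have h : prodM (fun j => mat (s j)) (k + 1) = mat (s k) * prodM (fun j => mat (s j)) k := rfl
    rw [h, ih]
    simp only [mat, pq]
    ext i j
    fin_cases i <;> fin_cases j <;> simp [Matrix.mul_apply, Fin.sum_univ_two]

theorem traj_eq (s : ℕ → ℝ) (x : ℕ → Fin 2 → ℝ) (hx : ∀ k, x (k + 1) = mat (s k) *ᵥ x k)
    (k : ℕ) : x k = prodM (fun j => mat (s j)) k *ᵥ x 0 := by
  induction k with
  | zero => simp [prodM]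
  | succ k ih => rw [hx, ih, Matrix.mulVec_mulVec]; rfl

/-! The unbounded trajectory. -/

/-- `L k = log (k + 3)`. -/
noncomputable def L (k : ℕ) : ℝ := Real.log ((k : ℝ) + 3)

theorem L_ge (k : ℕ) : 1 < L k := by
  have h1 : (1 : ℝ) < Real.log 3 := by
    rw [Real.lt_log_iff_exp_lt (by norm_num)]
    exact Real.exp_one_lt_d9.trans (by norm_num)
  have h2 : Real.log 3 ≤ L k := by
    apply Real.log_le_log (by norm_num)
    have : (0 : ℝ) ≤ k := by positivity
    linarith
  linarith

theorem L_lt (k : ℕ) : L k < L (k + 1) := by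
  apply Real.log_lt_log (by positivity)
  push_cast; linarith

theorem L_step (k : ℕ) : L (k + 1) - L k ≤ 1 / ((k : ℝ) + 3) := by
  simp only [L]
  rw [← Real.log_div (by positivity) (by positivity)]
  have h1 := Real.log_le_sub_one_of_pos
    (show 0 < (((k + 1 : ℕ) : ℝ) + 3) / ((k : ℝ) + 3) by positivity)
  refine h1.trans (le_of_eq ?_)
  push_cast
  field_simp
  ring

/-- the parameters -/
noncomputable def sq (k : ℕ) : ℝ := (1 / L k - 1 / L (k + 1)) / (1 + 1 / L k)

/-- the diagonal entries -/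
noncomputable def P (k : ℕ) : ℝ := (1 + 1 / L k) / (1 + 1 / L 0)

theorem sq_pos (k : ℕ) : 0 < sq k := by
  have h1 := L_ge k
  have h2 := L_lt k
  have h3 : 1 / L (k + 1) < 1 / L k := one_div_lt_one_div_of_lt (by linarith) h2
  apply div_pos (by linarith)
  have : 0 < 1 / L k := by positivity
  linarith

theorem sq_le_half (k : ℕ) : sq k ≤ 1 / 2 := by
  have h1 := L_ge k
  have h2 := L_lt k
  have h0 : 0 < L k := by linarith
  have h0' : 0 < L (k + 1) := by linarith
  have h3 : 0 < 1 / L (k + 1) := by positivity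
  have h4 : 1 / L k < 1 := by rw [div_lt_one h0]; exact h1
  have h5 : 0 < 1 / L k := by positivity
  simp only [sq]
  rw [div_le_iff₀ (by linarith)]
  linarith

theorem sq_le (k : ℕ) : sq k ≤ 1 / ((k : ℝ) + 3) := by
  have h1 := L_ge k
  have h2 := L_lt k
  have h0 : 0 < L k := by linarith
  have h0' : 0 < L (k + 1) := by linarith
  have h3 := L_step k
  have h4 : 1 / L k - 1 / L (k + 1) ≤ L (k + 1) - L k := by
    have : 1 / L k - 1 / L (k + 1) = (L (k + 1) - L k) / (L k * L (k + 1)) := by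
      field_simp
    rw [this]
    apply div_le_self (by linarith)
    nlinarith
  have h5 : 0 < 1 / L k := by positivity
  have h6 : 1 / L (k + 1) < 1 / L k := one_div_lt_one_div_of_lt h0 h2
  calc sq k ≤ 1 / L k - 1 / L (k + 1) := by
        apply div_le_self (by linarith) (by linarith)
    _ ≤ _ := by linarith

theorem P_pos (k : ℕ) : 0 < P k := by
  have h1 := L_ge k
  have h0 := L_ge 0
  have : 0 < 1 / L k := by positivity
  have : 0 < 1 / L 0 := by positivity
  apply div_pos <;> linarith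

theorem P_step (k : ℕ) : P (k + 1) = (1 - sq k) * P k := by
  have h1 := L_ge k
  have h0 := L_ge 0
  have h2 := L_ge (k + 1)
  have h3 : 0 < 1 / L k := by positivity
  have h4 : 0 < 1 / L 0 := by positivity
  have h5 : 1 + 1 / L k ≠ 0 := by linarith
  have h6 : 1 + 1 / L 0 ≠ 0 := by linarith
  simp only [P, sq]
  field_simp
  ring

theorem P_ge (k : ℕ) : 1 / 2 ≤ P k := by
  have h1 := L_ge k
  have h0 := L_ge 0
  have h3 : 0 < 1 / L k := by positivity
  have h4 : 0 < 1 / L 0 := by positivity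
  have h5 : 1 / L 0 < 1 := by rw [div_lt_one (by linarith)]; exact h0
  simp only [P]
  rw [le_div_iff₀ (by linarith)]
  linarith

theorem phi_sq (k : ℕ) :
    (1 / 4) * (Real.log (L (k + 1)) - Real.log (L k)) ≤ Real.negMulLog (sq k) := by
  have h1 := L_ge k
  have h2 := L_lt k
  have h0 : 0 < L k := by linarith
  have h0' : 0 < L (k + 1) := by linarith
  have hs := sq_pos k
  have hk3 : (0 : ℝ) < (k : ℝ) + 3 := by positivity
  have h3 : Real.log (sq k) ≤ - L k := by
    have := Real.log_le_log hs (sq_le k)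
    rw [one_div, Real.log_inv] at this
    exact this
  have h4 : sq k * L k ≤ Real.negMulLog (sq k) := by
    simp only [Real.negMulLog]
    nlinarith
  have h5 : (1 / 2) * (1 - L k / L (k + 1)) ≤ sq k * L k := by
    have e : sq k * L k = (1 - L k / L (k + 1)) / (1 + 1 / L k) := by
      simp only [sq]
      field_simp
    have e2 : (1 - L k / L (k + 1)) / (1 + 1 / L k)
        = (1 + 1 / L k)⁻¹ * (1 - L k / L (k + 1)) := by rw [div_eq_mul_inv, mul_comm]
    rw [e, e2]
    have h6 : L k / L (k + 1) < 1 := by rw [div_lt_one h0']; exact h2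
    have h7 : 1 / L k < 1 := by rw [div_lt_one h0]; exact h1
    have h8 : 0 < 1 / L k := by positivity
    have h9 : (1 : ℝ) / 2 ≤ (1 + 1 / L k)⁻¹ := by
      rw [← one_div]
      apply one_div_le_one_div_of_le (by linarith) (by linarith)
    exact mul_le_mul_of_nonneg_right h9 (by linarith)
  have h10 : L (k + 1) ≤ 2 * L k := by
    have := L_step k
    have h11 : 1 / ((k : ℝ) + 3) ≤ 1 := by rw [div_le_one hk3]; linarith [Nat.cast_nonneg (α := ℝ) k]
    linarith
  have h12 : Real.log (L (k + 1)) - Real.log (L k) ≤ 2 * (1 - L k / L (k + 1)) := by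
    rw [← Real.log_div h0'.ne' h0.ne']
    have h13 := Real.log_le_sub_one_of_pos (show 0 < L (k + 1) / L k by positivity)
    have h14 : L (k + 1) / L k - 1 = (1 - L k / L (k + 1)) * (L (k + 1) / L k) := by
      field_simp
    have h15 : L (k + 1) / L k ≤ 2 := by rw [div_le_iff₀ h0]; linarith
    have h6 : L k / L (k + 1) < 1 := by rw [div_lt_one h0']; exact h2
    rw [h14] at h13
    nlinarith
  linarith

theorem pq_sq (k : ℕ) : (pq sq k).1 = P k ∧
    P k * ((1 / 4) * (Real.log (L k) - Real.log (L 0))) ≤ (pq sq k).2 := by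
  induction k with
  | zero =>
    have h0 := L_ge 0
    have h4 : 0 < 1 / L 0 := by positivity
    have h5 : 1 + 1 / L 0 ≠ 0 := by linarith
    refine ⟨?_, by simp [pq]⟩
    simp only [pq, P]
    exact (div_self h5).symm
  | succ k ih =>
    obtain ⟨h1, h2⟩ := ih
    simp only [pq]
    refine ⟨by rw [h1, P_step], ?_⟩
    rw [h1, P_step]
    have h3 := phi_sq k
    have h4 := sq_pos k
    have h5 := sq_le_half k
    have h6 := P_pos k
    have h7 := phi_nonneg h4.le h5
    have h8 : (1 - sq k) * (P k * ((1 / 4) * (Real.log (L k) - Real.log (L 0))))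
        ≤ (1 - sq k) * (pq sq k).2 := mul_le_mul_of_nonneg_left h2 (by linarith)
    have h9 : (1 - sq k) * P k * ((1 / 4) * (Real.log (L (k + 1)) - Real.log (L k)))
        ≤ Real.negMulLog (sq k) * P k := by
      have h10 : (1 - sq k) * P k * ((1 / 4) * (Real.log (L (k + 1)) - Real.log (L k)))
          ≤ (1 - sq k) * P k * Real.negMulLog (sq k) :=
        mul_le_mul_of_nonneg_left h3 (mul_nonneg (by linarith) h6.le)
      have h11 : 0 ≤ P k * Real.negMulLog (sq k) := mul_nonneg h6.le h7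
      nlinarith
    nlinarith

/-- There is a compact set of `2 × 2` matrices with joint spectral radius `1` whose discrete time
switching system has an unbounded trajectory, but all of whose trajectories grow subpolynomially. -/
theorem result : ∃ S : Set (Matrix (Fin 2) (Fin 2) ℝ), S.Nonempty ∧ IsCompact S ∧ IsJSR S 1 ∧
    (∃ x : ℕ → Fin 2 → ℝ, Trajectory S x ∧ ¬ ∃ C : ℝ, ∀ k, ‖x k‖ ≤ C) ∧
    (∀ x : ℕ → Fin 2 → ℝ, Trajectory S x → ∀ α : ℝ, 0 < α →
      (fun k : ℕ => ‖x k‖) =O[atTop] (fun k : ℕ => (k : ℝ) ^ α)) := by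
  refine ⟨fam, ⟨mat 0, 0, by norm_num, rfl⟩, fam_compact, ?_, ?_, ?_⟩
  · -- joint spectral radius
    have hbd : ∀ k : ℕ, 1 ≤ k → ∀ A : ℕ → Matrix (Fin 2) (Fin 2) ℝ, (∀ i, A i ∈ fam) →
        ‖prodM A k‖ ≤ 2 * (Real.log k + 1) := by
      intro k hk A hA
      choose s hs hsA using hA
      have hA' : A = fun j => mat (s j) := by funext j; exact (hsA j).symm
      have hs' : ∀ k, 0 ≤ s k ∧ s k ≤ 1 / 2 := fun k => ⟨(hs k).1, (hs k).2⟩
      obtain ⟨h1, h2, h3, h4⟩ := pq_le s hs' k hk
      have hlog : 0 ≤ Real.log k := Real.log_nonneg (by exact_mod_cast hk)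
      rw [hA', prodM_eq, Matrix.norm_le_iff (by linarith)]
      intro i j
      fin_cases i <;> fin_cases j <;> simp [abs_of_nonneg h1, abs_of_nonneg h3] <;> linarith
    have hone : prodM (fun _ => mat 0) = fun _ => (1 : Matrix (Fin 2) (Fin 2) ℝ) := by
      have hm : mat 0 = 1 := by
        ext i j
        fin_cases i <;> fin_cases j <;> simp [mat]
      funext k
      induction k with
      | zero => rfl
      | succ k ih =>
        have h : prodM (fun _ => mat 0) (k + 1) = mat 0 * prodM (fun _ => mat 0) k := rfl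
        rw [h, ih, hm, mul_one]
    have hnorm1 : ‖(1 : Matrix (Fin 2) (Fin 2) ℝ)‖ = 1 := by
      apply le_antisymm
      · rw [Matrix.norm_le_iff (by norm_num)]
        intro i j
        fin_cases i <;> fin_cases j <;> simp
      · have := Matrix.norm_entry_le_entrywise_sup_norm (1 : Matrix (Fin 2) (Fin 2) ℝ)
          (i := 0) (j := 0)
        rwa [Matrix.one_apply_eq, norm_one] at this
    have hlow : ∀ k : ℕ, 1 ≤ k → 1 ≤ sSup {r : ℝ | ∃ A : ℕ → Matrix (Fin 2) (Fin 2) ℝ,
        (∀ i, A i ∈ fam) ∧ r = ‖prodM A k‖} := by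
      intro k hk
      apply le_csSup
      · refine ⟨2 * (Real.log k + 1), ?_⟩
        rintro r ⟨A, hA, rfl⟩
        exact hbd k hk A hA
      · refine ⟨fun _ => mat 0, fun _ => ⟨0, by norm_num, rfl⟩, ?_⟩
        rw [hone, hnorm1]
    have hupp : ∀ k : ℕ, 2 ≤ k → sSup {r : ℝ | ∃ A : ℕ → Matrix (Fin 2) (Fin 2) ℝ,
        (∀ i, A i ∈ fam) ∧ r = ‖prodM A k‖} ≤ (k : ℝ) ^ (2 : ℝ) := by
      intro k hk
      apply csSup_le
      · exact ⟨_, fun _ => mat 0, fun _ => ⟨0, by norm_num, rfl⟩, rfl⟩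
      · rintro r ⟨A, hA, rfl⟩
        refine (hbd k (by omega) A hA).trans ?_
        have hk' : (2 : ℝ) ≤ k := by exact_mod_cast hk
        have h1 := Real.log_le_sub_one_of_pos (show (0 : ℝ) < k by linarith)
        have h2 : (k : ℝ) ^ (2 : ℝ) = (k : ℝ) * k := by
          rw [← Nat.cast_ofNat (n := 2), Real.rpow_natCast]; ring
        rw [h2]
        nlinarith
    have hlim : Tendsto (fun k : ℕ => ((k : ℝ) ^ (2 : ℝ)) ^ (1 / (k : ℝ))) atTop (𝓝 1) := by
      have h1 := (tendsto_rpow_div.comp tendsto_natCast_atTop_atTop).pow 2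
      rw [one_pow] at h1
      refine h1.congr ?_
      intro k
      simp only [Function.comp]
      rw [← Real.rpow_mul (Nat.cast_nonneg k), ← Real.rpow_natCast, ← Real.rpow_mul
        (Nat.cast_nonneg k)]
      congr 1
      push_cast
      ring
    refine tendsto_of_tendsto_of_tendsto_of_le_of_le' tendsto_const_nhds hlim ?_ ?_
    · filter_upwards [eventually_ge_atTop 1] with k hk
      exact Real.one_le_rpow (hlow k hk) (by positivity)
    · filter_upwards [eventually_ge_atTop 2] with k hk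
      exact Real.rpow_le_rpow (by linarith [hlow k (by omega)]) (hupp k hk) (by positivity)
  · -- unbounded trajectory
    refine ⟨fun k => ![(pq sq k).2, (pq sq k).1], ?_, ?_⟩
    · intro k
      refine ⟨mat (sq k), ⟨sq k, ⟨(sq_pos k).le, sq_le_half k⟩, rfl⟩, ?_⟩
      funext i
      fin_cases i
      · simp [pq, mat, mulVec, dotProduct, Fin.sum_univ_two]
      · simp [pq, mat, mulVec, dotProduct, Fin.sum_univ_two]
    · rintro ⟨C, hC⟩
      have h1 : Tendsto (fun k : ℕ => Real.log (L k)) atTop atTop := by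
        apply Real.tendsto_log_atTop.comp
        apply Real.tendsto_log_atTop.comp
        exact tendsto_atTop_add_const_right _ _ tendsto_natCast_atTop_atTop
      obtain ⟨k, hk⟩ := (h1.eventually (eventually_gt_atTop (8 * |C| + Real.log (L 0)))).exists
      have h2 := (pq_sq k).2
      have h3 := P_ge k
      have h4 : |(pq sq k).2| ≤ C := by
        have := norm_le_pi_norm (![(pq sq k).2, (pq sq k).1] : Fin 2 → ℝ) 0
        simp only [Matrix.cons_val_zero, Real.norm_eq_abs] at this
        exact this.trans (hC k)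
      have h5 := le_abs_self ((pq sq k).2)
      have h6 := le_abs_self C
      have h7 := abs_nonneg C
      nlinarith
  · -- upper bound
    intro x hx α hα
    choose A hA hxA using hx
    choose s hs hsA using hA
    have hx' : ∀ k, x (k + 1) = mat (s k) *ᵥ x k := fun k => by rw [hxA k, hsA k]
    have hs' : ∀ k, 0 ≤ s k ∧ s k ≤ 1 / 2 := fun k => ⟨(hs k).1, (hs k).2⟩
    have hO1 : (fun k : ℕ => Real.log k + 1) =O[atTop] (fun k : ℕ => (k : ℝ) ^ α) := by
      apply Asymptotics.IsBigO.add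
      · exact ((isLittleO_log_rpow_atTop hα).isBigO).comp_tendsto tendsto_natCast_atTop_atTop
      · apply Asymptotics.IsBigO.of_bound 1
        filter_upwards [eventually_ge_atTop 1] with k hk
        have hk' : (1 : ℝ) ≤ k := by exact_mod_cast hk
        have := Real.one_le_rpow hk' hα.le
        rw [norm_one, one_mul, Real.norm_of_nonneg (by positivity)]
        exact this
    refine Asymptotics.IsBigO.trans ?_ hO1
    apply Asymptotics.IsBigO.of_bound (3 * ‖x 0‖)
    filter_upwards [eventually_ge_atTop 1] with k hk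
    obtain ⟨h1, h2, h3, h4⟩ := pq_le s hs' k hk
    have hlog : 0 ≤ Real.log k := Real.log_nonneg (by exact_mod_cast hk)
    rw [norm_norm, Real.norm_of_nonneg (by linarith)]
    rw [pi_norm_le_iff_of_nonneg (by positivity)]
    have e0 := norm_le_pi_norm (x 0) 0
    have e1 := norm_le_pi_norm (x 0) 1
    rw [Real.norm_eq_abs] at e0 e1
    have hx0 := norm_nonneg (x 0)
    have hxk := traj_eq s x hx' k
    rw [prodM_eq] at hxk
    intro i
    rw [hxk]
    fin_cases i
    · simp only [mulVec, dotProduct, Fin.sum_univ_two, Real.norm_eq_abs]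
      simp only [Fin.zero_eta, Matrix.of_apply, Matrix.cons_val_zero, Matrix.cons_val_one,
        Matrix.cons_val', Matrix.cons_val_fin_one]
      calc |(pq s k).1 * x 0 0 + (pq s k).2 * x 0 1|
          ≤ |(pq s k).1 * x 0 0| + |(pq s k).2 * x 0 1| := abs_add_le _ _
        _ = (pq s k).1 * |x 0 0| + (pq s k).2 * |x 0 1| := by
            rw [abs_mul, abs_mul, abs_of_nonneg h1, abs_of_nonneg h3]
        _ ≤ 1 * ‖x 0‖ + 2 * (Real.log k + 1) * ‖x 0‖ := by gcongr
        _ ≤ 3 * ‖x 0‖ * (Real.log k + 1) := by nlinarith [mul_nonneg hx0 hlog]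
    · simp only [mulVec, dotProduct, Fin.sum_univ_two, Real.norm_eq_abs]
      simp only [Fin.mk_one, Matrix.of_apply, Matrix.cons_val_zero, Matrix.cons_val_one,
        Matrix.cons_val', Matrix.cons_val_fin_one, zero_mul, zero_add]
      calc |(pq s k).1 * x 0 1| = (pq s k).1 * |x 0 1| := by
            rw [abs_mul, abs_of_nonneg h1]
        _ ≤ 1 * ‖x 0‖ := by gcongr
        _ ≤ 3 * ‖x 0‖ * (Real.log k + 1) := by nlinarith [mul_nonneg hx0 hlog]

end Pool.Agent.Results.MP_653f52_an.SlowGrowth
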